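import Pool.Agent.H635EF.Main

/-! MP_caf32e_co, question Q1 (Kawarabayashi), full positive answer with the explicit constant
`N = 42 g + 4`: every even-faced graph embedded in the closed orientable surface of genus `g` whose
noncontractible cycles all have length at least `42 g + 4` is 4-list colourable. -/

set_option autoImplicit false

namespace Pool.Agent.Results.MP_caf32e_co.EvenFacedFourList

open Pool.Agent.H635EF

/-- Let `M` be a finite connected simple graph with a cellular embedding `ρ` in the closed
orientable surface of genus `g`, and `G` a subgraph of `M` (any finite simple graph embedded in the
surface arises in this way). If all facial boundary walks of `G` have even length and all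
noncontractible cycles of `G` have length at least `42 g + 4`, then `G` is 4-list colourable. -/
theorem result (g : ℕ) {W : Type} [Finite W] (M : SimpleGraph W) (ρ : Rot M)
    (hρ : CellularGenus ρ g) (G : M.Subgraph) (heven : EvenFaced ρ G)
    (hwidth : EdgeWidthAtLeast ρ G (42 * g + 4)) : ListColourable G 4 := by
  have := Fintype.ofFinite W
  exact main g ρ hρ G heven hwidth

end Pool.Agent.Results.MP_caf32e_co.EvenFacedFourList
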